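import Pool.Agent.helper1.TW.SpecA

set_option autoImplicit false

open Complex MeasureTheory Set
open scoped ComplexConjugate

namespace Pool.Agent.TW

open Pool.Agent.ZT (VV gC Bn MC lamA muA hm Sqf)

theorem PTW_log (n : ℕ) (θ : ℝ) (hθ : 0 < θ) (hθ1 : θ ≤ 1) : ∃ C : ℝ, 0 < C ∧
    ∀ ρ L : ℝ, 1 ≤ ρ → 1 ≤ L → (1 + Real.log ρ / L) ^ (n + 2) ≤ C * ρ ^ θ := by
  have hn0 : (0 : ℝ) ≤ n := Nat.cast_nonneg n
  have hs : 0 < θ / ((n : ℝ) + 2) := by positivity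
  have hs1 : θ / ((n : ℝ) + 2) ≤ 1 := by
    rw [div_le_one (by positivity)]
    linarith
  refine ⟨(1 / (θ / ((n : ℝ) + 2))) ^ (n + 2), by positivity, fun ρ L hρ hL => ?_⟩
  obtain ⟨s, hsdef⟩ : ∃ s, s = θ / ((n : ℝ) + 2) := ⟨_, rfl⟩
  rw [← hsdef] at hs hs1 ⊢
  have hlog : 0 ≤ Real.log ρ := Real.log_nonneg hρ
  have h1 : Real.log ρ / L ≤ Real.log ρ := div_le_self hlog hL
  have h2 : 1 + Real.log ρ ≤ 1 / s * Real.exp (s * Real.log ρ) := by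
    have h3 : s * Real.log ρ + 1 ≤ Real.exp (s * Real.log ρ) := Real.add_one_le_exp _
    rw [div_mul_eq_mul_div, one_mul, le_div_iff₀ hs]
    nlinarith
  have h4 : (1 + Real.log ρ / L) ^ (n + 2) ≤ (1 / s * Real.exp (s * Real.log ρ)) ^ (n + 2) := by
    apply pow_le_pow_left₀ (by positivity)
    linarith
  refine h4.trans (le_of_eq ?_)
  have h5 : Real.exp (s * Real.log ρ) ^ (n + 2) = ρ ^ θ := by
    rw [← Real.exp_nat_mul, Real.rpow_def_of_pos (by linarith)]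
    congr 1
    rw [hsdef]
    push_cast
    field_simp
  rw [mul_pow, h5]

theorem PTW (hPG1 : PG1_stmt) (hNRM : NRM_stmt) (hSUP : SUP_stmt) (hGTF : GTF_stmt) :
    PTW_stmt := by
  intro k n N₀ c CG om μs a b hab hk hn
  obtain ⟨x₀, hx₀, hx₀1, C₁, hC₁, hN⟩ := hNRM k n μs a b hk hn hab
  obtain ⟨C₂, hC₂, hP⟩ := hPG1 k n μs a b hk hn hab
  have hn1 : 1 ≤ n := by omega
  have hkR : (3 : ℝ) ≤ k := by exact_mod_cast hk
  have hth : 0 < th k := by unfold th; positivity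
  have hth1 : th k ≤ 1 / 5 := by
    unfold th
    rw [div_le_div_iff₀ (by positivity) (by norm_num)]
    linarith
  obtain ⟨C₃, hC₃, hL3⟩ := PTW_log n (th k) hth (by linarith)
  refine ⟨x₀, hx₀, hx₀1, fun x₁ hx₁ hx₁0 => ?_⟩
  have hx₁' : 0 < x₁ ^ (-(3 / 5) : ℝ) := Real.rpow_pos_of_pos hx₁ _
  refine ⟨C₁ + C₂ * (C₁ * C₃) * (1 + x₁ ^ (-(3 / 5) : ℝ)), by positivity, ?_⟩
  intro ι D hDa hDb hOk q v i hq
  have hctr : Ctr D.a D.b := hOk.ctr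
  obtain ⟨hrho, -⟩ := hGTF n ι D hn1 hctr hOk.fam.r1 hOk.om hOk.fam.bd hOk.pos
  obtain ⟨-, -, -, -, -, -, -, hN0, hlast⟩ :=
    hSUP n ι D hn1 hctr hOk.fam.r1 hOk.om hOk.fam.bd hOk.pos v
  have hL : 1 ≤ Real.log q := by
    rw [Real.le_log_iff_exp_le (by linarith)]
    have := Real.exp_one_lt_d9
    linarith
  have hsq : 0 < √q := Real.sqrt_pos.2 (by linarith)
  obtain ⟨Nq, hNq⟩ : ∃ Nq, Nq = D.N x₁ q v / √q := ⟨_, rfl⟩
  rw [← hNq]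
  have hNq0 : 0 ≤ Nq := by
    rw [hNq]
    exact div_nonneg (hN0 x₁ q hx₁ hq) hsq.le
  have hρ : 1 ≤ D.rho i := hrho i
  obtain ⟨ρ, hρe⟩ : ∃ ρ, ρ = D.rho i := ⟨_, rfl⟩
  have hint := (hlast x₁ q i hx₁ hq).2
  have hint' : ∫ x in Ioi x₁, Bn n (Real.log q) x * ‖D.f 0 i (v i) x‖ ≤ Nq := by
    rw [hNq, le_div_iff₀ hsq, mul_comm]
    exact hint
  have hM := hN ι D hDa hDb hOk.fam.r1 hOk.om hOk.fam.bd hOk.fam.one hOk.fam.mul hOk.mu hOk.pos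
    (Real.log q) x₁ i (v i) hL hx₁ hx₁0
  have hPx := fun (x : ℝ) (j : ℕ) (hx : 0 < x) (hj : j ≤ 1) =>
    hP ι D hDa hDb hOk.fam.r1 hOk.om hOk.fam.bd hOk.mu hOk.pos (Real.log q) x i (v i) j hL hx hj
  rw [← hρe] at hρ hM hPx ⊢
  have hρ0 : 0 < ρ := by linarith
  have hA0 : 0 ≤ C₁ * ρ⁻¹ * (1 + Real.log ρ / Real.log q) ^ (n + 2) := by
    have : 0 ≤ Real.log ρ := Real.log_nonneg hρ
    positivity
  have hM1 : MC (D.μ i) (Real.log q) (v i) ≤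
      C₁ * ρ⁻¹ * (1 + Real.log ρ / Real.log q) ^ (n + 2) * Nq :=
    hM.trans (mul_le_mul_of_nonneg_left hint' hA0)
  have hM2 : MC (D.μ i) (Real.log q) (v i) ≤ C₁ * C₃ * ρ ^ (-1 + th k) * Nq := by
    refine hM1.trans (mul_le_mul_of_nonneg_right ?_ hNq0)
    have h1 := hL3 ρ (Real.log q) hρ hL
    have h2 : ρ ^ (-1 + th k) = ρ⁻¹ * ρ ^ th k := by
      rw [Real.rpow_add hρ0, Real.rpow_neg_one]
    rw [h2]
    calc C₁ * ρ⁻¹ * (1 + Real.log ρ / Real.log q) ^ (n + 2)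
        ≤ C₁ * ρ⁻¹ * (C₃ * ρ ^ th k) := mul_le_mul_of_nonneg_left h1 (by positivity)
      _ = C₁ * C₃ * (ρ⁻¹ * ρ ^ th k) := by ring
  constructor
  · refine hM1.trans ?_
    have hle : C₁ ≤ C₁ + C₂ * (C₁ * C₃) * (1 + x₁ ^ (-(3 / 5) : ℝ)) :=
      le_add_of_nonneg_right (by positivity)
    have hlog : 0 ≤ Real.log ρ := Real.log_nonneg hρ
    gcongr
  · intro j x hj hx
    have hx0 : 0 < x := lt_of_lt_of_le hx₁ hx
    have hlow : x ≤ ρ → ‖D.f j i (v i) x‖ ≤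
        C₂ * (C₁ * C₃) * (x ^ (-(3 / 5) : ℝ) * ρ ^ (-(2 / 5) + th k)) * Nq := by
      intro hxρ
      have h1 := (hPx x j hx0 hj).2 hxρ
      have h2 : C₂ * (x / ρ) ^ (-(3 / 5) : ℝ) * MC (D.μ i) (Real.log q) (v i) ≤
          C₂ * (x / ρ) ^ (-(3 / 5) : ℝ) * (C₁ * C₃ * ρ ^ (-1 + th k) * Nq) :=
        mul_le_mul_of_nonneg_left hM2 (by positivity)
      refine (h1.trans h2).trans (le_of_eq ?_)
      have h3 : (x / ρ) ^ (-(3 / 5) : ℝ) = x ^ (-(3 / 5) : ℝ) * ρ ^ (3 / 5 : ℝ) := by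
        rw [Real.div_rpow hx0.le hρ0.le, Real.rpow_neg hρ0.le (3 / 5), div_inv_eq_mul]
      have h4 : ρ ^ (-(2 / 5) + th k) = ρ ^ (3 / 5 : ℝ) * ρ ^ (-1 + th k) := by
        rw [← Real.rpow_add hρ0]
        congr 1
        ring
      rw [h3, h4]
      ring
    have hCle : C₂ * (C₁ * C₃) ≤ C₁ + C₂ * (C₁ * C₃) * (1 + x₁ ^ (-(3 / 5) : ℝ)) := by
      have : 0 ≤ C₂ * (C₁ * C₃) * x₁ ^ (-(3 / 5) : ℝ) := by positivity
      nlinarith
    have hCle2 : C₂ * (C₁ * C₃) * x₁ ^ (-(3 / 5) : ℝ) ≤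
        C₁ + C₂ * (C₁ * C₃) * (1 + x₁ ^ (-(3 / 5) : ℝ)) := by
      have : 0 ≤ C₂ * (C₁ * C₃) := by positivity
      nlinarith
    constructor
    · rcases le_total ρ x with hρx | hxρ
      · have h1 := (hPx x j hx0 hj).1 hρx
        have h2 : C₂ * (x / ρ) ^ (-1 + th k) * MC (D.μ i) (Real.log q) (v i) ≤
            C₂ * (x / ρ) ^ (-1 + th k) * (C₁ * C₃ * ρ ^ (-1 + th k) * Nq) :=
          mul_le_mul_of_nonneg_left hM2 (by positivity)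
        have hmax : max 1 x = x := max_eq_right (by linarith)
        have h3 : (x / ρ) ^ (-1 + th k) * ρ ^ (-1 + th k) = x ^ (-1 + th k) := by
          rw [← Real.mul_rpow (by positivity) hρ0.le, div_mul_cancel₀ _ hρ0.ne']
        rw [hmax]
        calc ‖D.f j i (v i) x‖ ≤ C₂ * (x / ρ) ^ (-1 + th k) * (C₁ * C₃ * ρ ^ (-1 + th k) * Nq) :=
              h1.trans h2
          _ = C₂ * (C₁ * C₃) * ((x / ρ) ^ (-1 + th k) * ρ ^ (-1 + th k)) * Nq := by ring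
          _ = C₂ * (C₁ * C₃) * x ^ (-1 + th k) * Nq := by rw [h3]
          _ ≤ _ := by gcongr
      · refine (hlow hxρ).trans ?_
        have hneg : -(2 / 5) + th k ≤ 0 := by linarith
        rcases le_total 1 x with h1x | hx1
        · rw [max_eq_right h1x]
          have h5 : ρ ^ (-(2 / 5) + th k) ≤ x ^ (-(2 / 5) + th k) :=
            Real.rpow_le_rpow_of_nonpos hx0 hxρ hneg
          have h6 : x ^ (-(3 / 5) : ℝ) * x ^ (-(2 / 5) + th k) = x ^ (-1 + th k) := by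
            rw [← Real.rpow_add hx0]
            congr 1
            ring
          have h7 : x ^ (-(3 / 5) : ℝ) * ρ ^ (-(2 / 5) + th k) ≤ x ^ (-1 + th k) := by
            rw [← h6]
            exact mul_le_mul_of_nonneg_left h5 (by positivity)
          gcongr
        · rw [max_eq_left hx1, Real.one_rpow, mul_one]
          have h5 : ρ ^ (-(2 / 5) + th k) ≤ 1 := Real.rpow_le_one_of_one_le_of_nonpos hρ hneg
          have h6 : x ^ (-(3 / 5) : ℝ) ≤ x₁ ^ (-(3 / 5) : ℝ) :=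
            Real.rpow_le_rpow_of_nonpos hx₁ hx (by norm_num)
          have h7 : x ^ (-(3 / 5) : ℝ) * ρ ^ (-(2 / 5) + th k) ≤ x₁ ^ (-(3 / 5) : ℝ) * 1 :=
            mul_le_mul h6 h5 (by positivity) (by positivity)
          rw [mul_one] at h7
          calc C₂ * (C₁ * C₃) * (x ^ (-(3 / 5) : ℝ) * ρ ^ (-(2 / 5) + th k)) * Nq
              ≤ C₂ * (C₁ * C₃) * x₁ ^ (-(3 / 5) : ℝ) * Nq := by gcongr
            _ ≤ _ := mul_le_mul_of_nonneg_right hCle2 hNq0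
    · intro hxρ
      refine (hlow hxρ).trans ?_
      calc C₂ * (C₁ * C₃) * (x ^ (-(3 / 5) : ℝ) * ρ ^ (-(2 / 5) + th k)) * Nq
          ≤ (C₁ + C₂ * (C₁ * C₃) * (1 + x₁ ^ (-(3 / 5) : ℝ))) *
            (x ^ (-(3 / 5) : ℝ) * ρ ^ (-(2 / 5) + th k)) * Nq := by gcongr
        _ = _ := by ring

end Pool.Agent.TW
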