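import Pool.Agent.helper1.TW.SpecB

set_option autoImplicit false

open Complex MeasureTheory Set
open scoped ComplexConjugate

namespace Pool.Agent.TW

open Pool.Agent.ZT (VV gC Bn MC cmf cmA cmI lamA muA hm Sqf)

theorem TPB (hPTW : PTW_stmt) (hTAI : TAI_stmt) (hFMC : FMC_stmt) (hTVF : TVF_stmt) :
    TPB_stmt := by
  intro k n N₀ c CG om μs a b hab hk hn
  obtain ⟨x₀, hx0, hx01, hP⟩ := hPTW k n N₀ c CG om μs a b hab hk hn
  obtain ⟨x₀', hx0', -, hT⟩ := hTAI k n N₀ c CG om μs a b hab hk hn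
  refine ⟨min x₀ x₀', lt_min hx0 hx0', (min_le_left _ _).trans hx01, fun x₁ hx1 hx10 => ?_⟩
  obtain ⟨CP, hCP, hP⟩ := hP x₁ hx1 (hx10.trans (min_le_left _ _))
  obtain ⟨CT, hCT, hT⟩ := hT x₁ hx1 (hx10.trans (min_le_right _ _))
  refine ⟨CT + CP, by positivity, ?_⟩
  intro ι D ha hb hok q v e hq he
  have hn1 : 1 ≤ n := by omega
  have hkR : (3 : ℝ) ≤ k := by exact_mod_cast hk
  have hnR : (100000 : ℝ) * k ≤ n := by exact_mod_cast hn
  have hn0 : (0 : ℝ) < n := by nlinarith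
  have hsq : 0 < √q := Real.sqrt_pos.2 (by linarith)
  have heR : (0 : ℝ) < e := lt_of_lt_of_le (by positivity) he
  have he0 : e ≠ 0 := by
    intro h
    rw [h, Nat.cast_zero] at heR
    exact lt_irrefl _ heR
  obtain ⟨x, hx⟩ : ∃ x : ℝ, x = e / √q := ⟨_, rfl⟩
  have hx1x : x₁ ≤ x := by
    rw [hx, le_div_iff₀ hsq]
    exact he
  have hTV := (hTVF n ι D hn1 hok.ctr hok.fam.r1 hok.om hok.fam.bd hok.fam.mul hok.pos q
    (by linarith)).2.2.1 v v.support e (Finset.Subset.refl _) he0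
  rw [← hx] at hTV ⊢
  obtain ⟨M, hM⟩ : ∃ M, M = D.N x₁ q v / √q := ⟨_, rfl⟩
  obtain ⟨m, hm⟩ : ∃ m, m = max 1 x := ⟨_, rfl⟩
  have hm1 : 1 ≤ m := by rw [hm]; exact le_max_left _ _
  have hm0 : 0 < m := by linarith
  have hTs := fun s hs => hT ι D ha hb hok q v 1 x s hq le_rfl hx1x hs
  have hPs := fun i => ((hP ι D ha hb hok q v i hq).2 0 x (by norm_num) hx1x).1
  rw [← hM, ← hm] at hTs hPs ⊢
  have hM0 : 0 ≤ M := by
    have h := hTs ∅ (fun i hi => absurd hi (Finset.notMem_empty i))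
    rw [Finset.sum_empty, div_one] at h
    have h2 : 0 < CT * m ^ (-(11 / 10) : ℝ) := by positivity
    exact nonneg_of_mul_nonneg_right h h2
  have hR1 : 1 ≤ Rx n 1 x := by
    unfold Rx
    rw [one_mul, ← hm]
    exact Real.one_le_rpow hm1 (by positivity)
  have hR2 : (Rx n 1 x) ^ 2 = m ^ (8 / (n : ℝ)) := by
    unfold Rx
    rw [one_mul, ← hm, ← Real.rpow_natCast, ← Real.rpow_mul hm0.le]
    congr 1
    push_cast
    ring
  have hsum : ‖D.T q v e‖ ≤ ∑ i ∈ v.support, ‖D.f 0 i (v i) x‖ := by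
    rw [hTV]
    refine (norm_sum_le _ _).trans (Finset.sum_le_sum fun i _ => ?_)
    rw [norm_mul]
    exact mul_le_of_le_one_left (norm_nonneg _) (hok.fam.bd i e)
  classical
  have hsplit := Finset.sum_filter_add_sum_filter_not v.support (fun i => Rx n 1 x ≤ (D.r i : ℝ))
    (fun i => ‖D.f 0 i (v i) x‖)
  have h1 : ∑ i ∈ v.support.filter (fun i => Rx n 1 x ≤ (D.r i : ℝ)), ‖D.f 0 i (v i) x‖ ≤
      CT * m ^ (-(11 / 10) : ℝ) * M := by
    have h := hTs (v.support.filter (fun i => Rx n 1 x ≤ (D.r i : ℝ)))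
      (fun i hi => (Finset.mem_filter.1 hi).2)
    rw [div_one] at h
    exact h
  have h2 : ∑ i ∈ v.support.filter (fun i => ¬ Rx n 1 x ≤ (D.r i : ℝ)), ‖D.f 0 i (v i) x‖ ≤
      m ^ (8 / (n : ℝ)) * (CP * m ^ (-1 + th k) * M) := by
    have hcard := (hFMC n ι D hok.fam.r1 hok.fam.cnt).2.1 (Rx n 1 x)
      (v.support.filter (fun i => ¬ Rx n 1 x ≤ (D.r i : ℝ))) hR1
      (fun i hi => (not_le.1 (Finset.mem_filter.1 hi).2).le)
    rw [hR2] at hcard
    have h3 : ∑ i ∈ v.support.filter (fun i => ¬ Rx n 1 x ≤ (D.r i : ℝ)), ‖D.f 0 i (v i) x‖ ≤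
        ∑ i ∈ v.support.filter (fun i => ¬ Rx n 1 x ≤ (D.r i : ℝ)), CP * m ^ (-1 + th k) * M :=
      Finset.sum_le_sum fun i _ => hPs i
    rw [Finset.sum_const, nsmul_eq_mul] at h3
    exact h3.trans (mul_le_mul_of_nonneg_right hcard (by positivity))
  have h8 : 8 / (n : ℝ) + th k ≤ 1 / (800 * k) := by
    have h9 : 8 / (n : ℝ) ≤ 8 / (100000 * k) :=
      div_le_div_of_nonneg_left (by norm_num) (by positivity) hnR
    have h10 : 8 / (100000 * (k : ℝ)) + 1 / (1000 * k) ≤ 1 / (800 * k) := by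
      have h11 : 8 / (100000 * (k : ℝ)) + 1 / (1000 * k) = (108 / 100000) / k := by
        field_simp
        norm_num
      have h12 : 1 / (800 * (k : ℝ)) = (125 / 100000) / k := by
        field_simp
        norm_num
      rw [h11, h12]
      exact div_le_div_of_nonneg_right (by norm_num) (by positivity)
    unfold th
    linarith
  have h4 : m ^ (8 / (n : ℝ)) * (CP * m ^ (-1 + th k) * M) ≤
      CP * m ^ (-1 + 1 / (800 * k) : ℝ) * M := by
    have h5 : m ^ (8 / (n : ℝ)) * m ^ (-1 + th k) ≤ m ^ (-1 + 1 / (800 * k) : ℝ) := by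
      rw [← Real.rpow_add hm0]
      exact Real.rpow_le_rpow_of_exponent_le hm1 (by linarith)
    calc m ^ (8 / (n : ℝ)) * (CP * m ^ (-1 + th k) * M) =
        CP * (m ^ (8 / (n : ℝ)) * m ^ (-1 + th k)) * M := by ring
      _ ≤ _ := by gcongr
  have h6 : CT * m ^ (-(11 / 10) : ℝ) * M ≤ CT * m ^ (-1 + 1 / (800 * k) : ℝ) * M := by
    have h7 : m ^ (-(11 / 10) : ℝ) ≤ m ^ (-1 + 1 / (800 * k) : ℝ) := by
      apply Real.rpow_le_rpow_of_exponent_le hm1
      have : 0 ≤ 1 / (800 * (k : ℝ)) := by positivity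
      linarith
    gcongr
  calc ‖D.T q v e‖ ≤ ∑ i ∈ v.support, ‖D.f 0 i (v i) x‖ := hsum
    _ ≤ CT * m ^ (-1 + 1 / (800 * k) : ℝ) * M + CP * m ^ (-1 + 1 / (800 * k) : ℝ) * M := by
        rw [← hsplit]
        exact add_le_add (h1.trans h6) (h2.trans h4)
    _ = _ := by ring

end Pool.Agent.TW
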